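import Pool.Agent.H94.LP1.M02
import Pool.Agent.H94.LP1.M10

/-!
# Module GenP: injectivity is an open condition on the positions
-/

namespace Pool.Agent.H18.Cub

open Finset Pool.Agent.H18.Ex

variable {ι Λ : Type} [Fintype ι] [DecidableEq ι]

open Classical in
omit [DecidableEq ι] in
/-- The multi-indices of a condition as a finite set. -/
theorem genP_exists_idxs (g : Lines Λ ι) (k : Kind Λ) :
    ∃ s : Finset (ι → ℕ), ∀ b, b ∈ s ↔ g.Idx k b := by
  obtain ⟨D, hD⟩ := Idx_lt g k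
  refine ⟨(Fintype.piFinset fun _ => range D).filter fun b => g.Idx k b, fun b => ?_⟩
  rw [mem_filter, Fintype.mem_piFinset]
  constructor
  · exact fun h => h.2
  · exact fun h => ⟨fun i => mem_range.2 (hD b h i), h⟩

/-- The finite set of the multi-indices of a condition. -/
noncomputable def genP_idxs (g : Lines Λ ι) (k : Kind Λ) : Finset (ι → ℕ) :=
  (genP_exists_idxs g k).choose

omit [DecidableEq ι] in
theorem genP_mem_idxs {g : Lines Λ ι} {k : Kind Λ} {b : ι → ℕ} :
    b ∈ genP_idxs g k ↔ g.Idx k b :=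
  (genP_exists_idxs g k).choose_spec b

/-- The matrix of the conditions. -/
noncomputable def genP_mat {R : Type} [CommRing R] [Algebra ℂ R] {κ : Type} (g : Lines Λ ι)
    (W : Submodule ℂ (MvPolynomial ι ℂ)) [FiniteDimensional ℂ W] (k : κ → Kind Λ)
    (pos : κ → ι → R) :
    Matrix (Σ i : κ, {b // b ∈ genP_idxs g (k i)}) (Fin (Module.finrank ℂ W)) R :=
  fun x a => tay (Module.finBasis ℂ W a : MvPolynomial ι ℂ) (g.pt (k x.1) (pos x.1)) x.2.1

theorem genP_tay_repr {W : Submodule ℂ (MvPolynomial ι ℂ)} [FiniteDimensional ℂ W]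
    (c : Fin (Module.finrank ℂ W) → ℂ) (q : ι → ℂ) (b : ι → ℕ) :
    tay ((∑ a, c a • Module.finBasis ℂ W a : W) : MvPolynomial ι ℂ) q b =
      ∑ a, tay (Module.finBasis ℂ W a : MvPolynomial ι ℂ) q b * c a := by
  have h : ((∑ a, c a • Module.finBasis ℂ W a : W) : MvPolynomial ι ℂ) =
      ∑ a, c a • (Module.finBasis ℂ W a : MvPolynomial ι ℂ) := by
    rw [Submodule.coe_sum]
    rfl
  rw [h, tay_sum]
  refine sum_congr rfl fun a _ => ?_
  rw [tay_smul, mul_comm]
  rfl

theorem genP_ker {κ : Type} (g : Lines Λ ι) (W : Submodule ℂ (MvPolynomial ι ℂ))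
    [FiniteDimensional ℂ W] (k : κ → Kind Λ) (pos : κ → ι → ℂ) :
    LinearMap.ker (genP_mat g W k pos).mulVecLin = ⊥ ↔ InjP g W k pos := by
  rw [LinearMap.ker_eq_bot']
  constructor
  · intro h F hF hs
    have h1 := h (fun a => (Module.finBasis ℂ W).repr ⟨F, hF⟩ a) ?_
    · have h2 : (⟨F, hF⟩ : W) = 0 := by
        rw [← (Module.finBasis ℂ W).sum_repr ⟨F, hF⟩]
        refine sum_eq_zero fun a _ => ?_
        have h3 : (Module.finBasis ℂ W).repr ⟨F, hF⟩ a = 0 := congrFun h1 a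
        rw [h3, zero_smul]
      exact congrArg Subtype.val h2
    · rw [Matrix.mulVecLin_apply]
      funext x
      have h2 := hs x.1 x.2.1 (genP_mem_idxs.1 x.2.2)
      have h3 := genP_tay_repr (fun a => (Module.finBasis ℂ W).repr ⟨F, hF⟩ a)
        (g.pt (k x.1) (pos x.1)) x.2.1
      rw [(Module.finBasis ℂ W).sum_repr ⟨F, hF⟩] at h3
      exact h3.symm.trans h2
  · intro h c hc
    rw [Matrix.mulVecLin_apply] at hc
    have h1 := h ((∑ a, c a • Module.finBasis ℂ W a : W) : MvPolynomial ι ℂ)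
      (Submodule.coe_mem _) ?_
    · have h2 : (∑ a, c a • Module.finBasis ℂ W a : W) = 0 := Subtype.ext h1
      funext a
      exact Fintype.linearIndependent_iff.1 (Module.finBasis ℂ W).linearIndependent c h2 a
    · intro i b hb
      rw [genP_tay_repr]
      exact congrFun hc ⟨i, b, genP_mem_idxs.2 hb⟩

/-- The general matrix. -/
noncomputable def genP_gmat {κ : Type} (g : Lines Λ ι) (W : Submodule ℂ (MvPolynomial ι ℂ))
    [FiniteDimensional ℂ W] (k : κ → Kind Λ) :
    Matrix (Σ i : κ, {b // b ∈ genP_idxs g (k i)}) (Fin (Module.finrank ℂ W))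
      (MvPolynomial (κ × ι) ℂ) :=
  genP_mat g W k fun i j => MvPolynomial.X (i, j)

theorem genP_gmat_map {κ : Type} (g : Lines Λ ι) (W : Submodule ℂ (MvPolynomial ι ℂ))
    [FiniteDimensional ℂ W] (k : κ → Kind Λ) (x : κ × ι → ℂ) :
    (genP_gmat g W k).map (MvPolynomial.eval x) = genP_mat g W k fun i j => x (i, j) := by
  ext r a
  have h1 := tay_map (MvPolynomial.aeval x : MvPolynomial (κ × ι) ℂ →ₐ[ℂ] ℂ)
    (Module.finBasis ℂ W a : MvPolynomial ι ℂ)
    (g.pt (k r.1) fun j => MvPolynomial.X (r.1, j)) r.2.1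
  rw [pt_map] at h1
  simp only [MvPolynomial.aeval_X] at h1
  show MvPolynomial.eval x (tay (Module.finBasis ℂ W a : MvPolynomial ι ℂ)
    (g.pt (k r.1) fun j => MvPolynomial.X (r.1, j)) r.2.1) = _
  rw [← MvPolynomial.coe_aeval_eq_eval]
  exact h1

/-- Openness (compare `GI.general` in `Pool.Agent.H18.Ex.Gen`; use a basis of `W`,
`Module.finBasis`). -/
theorem GIP.general {κ : Type} [Fintype κ] {g : Lines Λ ι} {W : Submodule ℂ (MvPolynomial ι ℂ)}
    [FiniteDimensional ℂ W] {k : κ → Kind Λ} (h : GIP g W k) :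
    ∃ G : MvPolynomial (κ × ι) ℂ, G ≠ 0 ∧
      ∀ pos : κ → ι → ℂ, MvPolynomial.eval (fun x => pos x.1 x.2) G ≠ 0 → InjP g W k pos := by
  obtain ⟨pos₀, h₀⟩ := h
  have h1 : LinearMap.ker
      ((genP_gmat g W k).map (MvPolynomial.eval fun x : κ × ι => pos₀ x.1 x.2)).mulVecLin = ⊥ := by
    rw [genP_gmat_map, genP_ker]
    exact h₀
  obtain ⟨G, hG, hG'⟩ := Pool.Agent.H18.Fat.exists_poly_injective _ _ h1
  refine ⟨G, ?_, ?_⟩
  · rintro rfl
    exact hG (map_zero _)
  · intro pos hpos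
    have h2 := hG' _ hpos
    rw [genP_gmat_map, genP_ker] at h2
    exact h2

/-- Two open conditions can be satisfied at the same time, at points not on the hyperplane. -/
theorem GIP.exists_common {κ : Type} [Fintype κ] {g : Lines Λ ι}
    {W W' : Submodule ℂ (MvPolynomial ι ℂ)} [FiniteDimensional ℂ W] [FiniteDimensional ℂ W']
    {k k' : κ → Kind Λ} (h : GIP g W k) (h' : GIP g W' k') (l : Λ) :
    ∃ pos : κ → ι → ℂ, InjP g W k pos ∧ InjP g W' k' pos ∧ ∀ i, pos i (g.co l) ≠ g.va l := by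
  obtain ⟨G, hG, hG'⟩ := h.general
  obtain ⟨H, hH, hH'⟩ := h'.general
  have hX : (∏ i : κ, (MvPolynomial.X (i, g.co l) - MvPolynomial.C (g.va l) :
      MvPolynomial (κ × ι) ℂ)) ≠ 0 := by
    refine prod_ne_zero_iff.2 fun i _ h0 => ?_
    have h1 := congrArg (MvPolynomial.eval fun _ : κ × ι => g.va l + 1) h0
    rw [map_sub, MvPolynomial.eval_X, MvPolynomial.eval_C, map_zero] at h1
    have h2 : g.va l + 1 - g.va l = 1 := by ring
    rw [h2] at h1
    exact one_ne_zero h1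
  have hne : G * H * ∏ i : κ, (MvPolynomial.X (i, g.co l) - MvPolynomial.C (g.va l) :
      MvPolynomial (κ × ι) ℂ) ≠ 0 :=
    mul_ne_zero (mul_ne_zero hG hH) hX
  obtain ⟨x, hx⟩ : ∃ x : κ × ι → ℂ, MvPolynomial.eval x
      (G * H * ∏ i : κ, (MvPolynomial.X (i, g.co l) - MvPolynomial.C (g.va l) :
      MvPolynomial (κ × ι) ℂ)) ≠ 0 := by
    by_contra hcon
    push Not at hcon
    exact hne (MvPolynomial.funext fun x => by rw [hcon x, map_zero])
  rw [map_mul, map_mul] at hx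
  have h1 := left_ne_zero_of_mul (left_ne_zero_of_mul hx)
  have h2 := right_ne_zero_of_mul (left_ne_zero_of_mul hx)
  have h3 := right_ne_zero_of_mul hx
  rw [map_prod] at h3
  refine ⟨fun i j => x (i, j), hG' _ h1, hH' _ h2, fun i hi => ?_⟩
  have h4 := prod_ne_zero_iff.1 h3 i (mem_univ _)
  rw [map_sub, MvPolynomial.eval_X, MvPolynomial.eval_C] at h4
  exact h4 (sub_eq_zero.2 hi)

end Pool.Agent.H18.Cub
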